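import Pool.Agent.H.MP_5e03f8_nt.A

namespace Pool.Agent.Results.MP_5e03f8_nt.Window

open Pool.Agent.H.MP_5e03f8_nt

/-- The weighted norm `|N a| (c/2)^v`, `v` the exponent of the prime `(2, sqrt 14)` in `(a)`. -/
noncomputable def wnorm (c : ℝ) (a : ℤ√14) : ℝ :=
  |(a.norm : ℝ)| * (c / 2) ^ multiplicity (Ideal.span {(2 : ℤ√14), Zsqrtd.sqrtd}) (Ideal.span {a})

/-- Euclidean function, conditions (i)-(iii). -/
def IsEucl (f : ℤ√14 → ℝ) : Prop :=
  (∀ l : ℝ, 0 ≤ l → (Set.range f ∩ Set.Icc 0 l).Finite) ∧ (∀ r, f r = 0 ↔ r = 0) ∧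
    ∀ a b, b ≠ 0 → ∃ q, f (a - b * q) < f b

theorem result : (∀ c : ℝ, 5 / 2 ≤ c → ¬ IsEucl (wnorm c)) ∧
    {c : ℝ | 0 < c ∧ IsEucl (wnorm c)} ≠ Set.Ioo (Real.sqrt 5) (Real.sqrt 7) := by
  have main : ∀ c : ℝ, 5 / 2 ≤ c → ¬ IsEucl (wnorm c) := by
    rintro c hc ⟨-, -, h⟩
    obtain ⟨q, hq⟩ := h ⟨30146099122430340, 11095306265472397⟩ ⟨D, 0⟩ (by decide)
    have hb : wnorm c ⟨D, 0⟩ = (D : ℝ) ^ 2 := by
      have : multiplicity (Ideal.span {(2 : ℤ√14), Zsqrtd.sqrtd})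
          (Ideal.span {(⟨D, 0⟩ : ℤ√14)}) = 0 := by
        rw [multiplicity_eq_zero, ← pow_one (Ideal.span {(2 : ℤ√14), Zsqrtd.sqrtd}), dvd_iff,
          pow_one, pi_dvd]
        decide
      rw [wnorm, this, pow_zero, mul_one, Zsqrtd.norm_def]
      simp [sq]
    rw [hb] at hq
    set a : ℤ√14 := ⟨30146099122430340, 11095306265472397⟩ - ⟨D, 0⟩ * q with ha
    have hS : (a.re % D, a.im % D) ∈ S := by
      have e1 : a.re = 30146099122430340 + D * (-q.re) := by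
        simp only [ha, Zsqrtd.re_sub, Zsqrtd.re_mul]
        ring
      have e2 : a.im = 11095306265472397 + D * (-q.im) := by
        simp only [ha, Zsqrtd.im_sub, Zsqrtd.im_mul]
        ring
      rw [e1, e2, Int.add_mul_emod_self_left, Int.add_mul_emod_self_left]
      decide
    have hg := good _ a.re a.im le_rfl hS
    have hD : (0 : ℝ) < D := by exact_mod_cast D_pos
    have hc1 : (1 : ℝ) ≤ c / 2 := by linarith
    rw [Good, ← Zsqrtd.norm_def] at hg
    refine absurd hq (not_lt.2 ?_)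
    rcases hg with g | ⟨g1, g2⟩
    · have g' : (D : ℝ) ^ 2 ≤ |(a.norm : ℝ)| := by exact_mod_cast g
      exact g'.trans (le_mul_of_one_le_right (abs_nonneg _) (one_le_pow₀ hc1))
    · have g' : 4 * (D : ℝ) ^ 2 ≤ 5 * |(a.norm : ℝ)| := by exact_mod_cast g2
      have hn : a.norm ≠ 0 := by
        intro h0
        rw [h0] at g'
        simp only [Int.cast_zero, abs_zero, mul_zero] at g'
        nlinarith
      have h1 := (fin a hn).le_multiplicity_of_pow_dvd
        ((dvd_iff 1 a).2 (by rw [pow_one, pi_dvd]; exact g1))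
      have h2 := pow_le_pow_right₀ hc1 h1
      rw [pow_one] at h2
      have h3 := mul_le_mul_of_nonneg_left h2 (abs_nonneg (a.norm : ℝ))
      unfold wnorm
      nlinarith [abs_nonneg (a.norm : ℝ)]
  refine ⟨main, fun h => ?_⟩
  have : (5 / 2 : ℝ) ∈ Set.Ioo (Real.sqrt 5) (Real.sqrt 7) :=
    ⟨(Real.sqrt_lt' (by norm_num)).2 (by norm_num), (Real.lt_sqrt (by norm_num)).2 (by norm_num)⟩
  rw [← h] at this
  exact main _ le_rfl this.2

end Pool.Agent.Results.MP_5e03f8_nt.Window
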